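import Pool.Agent.helper7.BQ.Spec

/-! Row `bq:VID`: Vaughan's identity. -/

set_option autoImplicit false

namespace Pool.Agent.BQ

open Finset ArithmeticFunction
open Pool.Agent.helper85.BVP (trunc trunc_apply Mr Zr)
open Pool.Agent.CH (eU)

private theorem VID_mul (f g : ArithmeticFunction ℝ) (n : ℕ) :
    (f * g) n = ∑ d ∈ n.divisors, f d * g (n / d) := by
  rw [ArithmeticFunction.mul_apply]
  exact Nat.sum_divisorsAntidiagonal (fun a b => f a * g b)

private theorem VID_sub (f g : ArithmeticFunction ℝ) (n : ℕ) : (f - g) n = f n - g n := by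
  rw [sub_eq_add_neg, ArithmeticFunction.add_apply, ArithmeticFunction.neg_apply, sub_eq_add_neg]

private theorem VID_Z (n : ℕ) (h : n ≠ 0) : (Zr : ArithmeticFunction ℝ) n = 1 := by
  simp [Zr, ArithmeticFunction.natCoe_apply, zeta_apply, h]

private theorem VID_div {n d : ℕ} (hd : d ∈ n.divisors) : n / d ≠ 0 := by
  obtain ⟨h1, h2⟩ := Nat.mem_divisors.1 hd
  obtain ⟨k, rfl⟩ := h1
  intro h
  have hd0 : d ≠ 0 := by
    rintro rfl
    simp at h2
  rw [Nat.mul_div_cancel_left k (Nat.pos_of_ne_zero hd0)] at h
  subst h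
  simp at h2

private theorem VID_eU (U d : ℕ) (h : U ^ 2 < d) : eU U d = 0 := by
  unfold eU
  rw [VID_mul]
  refine Finset.sum_eq_zero fun a ha => ?_
  rw [trunc_apply, trunc_apply]
  by_cases h1 : a ≤ U
  · by_cases h2 : d / a ≤ U
    · exfalso
      have h3 := Nat.div_mul_cancel (Nat.dvd_of_mem_divisors ha)
      have h4 : d / a * a ≤ U * U := Nat.mul_le_mul h2 h1
      rw [h3] at h4
      rw [sq] at h
      omega
    · rw [if_neg h2, mul_zero]
  · rw [if_neg h1, zero_mul]

private theorem VID_ga (U l : ℕ) :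
    ((vonMangoldt - trunc vonMangoldt U) * (Zr : ArithmeticFunction ℝ)) l = ga U l := by
  unfold ga
  rw [VID_mul, Finset.sum_filter]
  refine Finset.sum_congr rfl fun m hm => ?_
  rw [VID_Z _ (VID_div hm), mul_one, VID_sub, trunc_apply]
  by_cases h : m ≤ U
  · rw [if_pos h, if_neg (not_lt.2 h), sub_self]
  · rw [if_neg h, if_pos (not_le.1 h), sub_zero]

private theorem VID_id (U : ℕ) : (vonMangoldt : ArithmeticFunction ℝ) =
    trunc vonMangoldt U + trunc Mr U * ArithmeticFunction.log - eU U * Zr +
      (Mr - trunc Mr U) * ((vonMangoldt - trunc vonMangoldt U) * Zr) := by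
  have h1 : (vonMangoldt : ArithmeticFunction ℝ) * Zr = ArithmeticFunction.log :=
    vonMangoldt_mul_zeta
  have h2 : Mr * Zr = 1 := coe_moebius_mul_coe_zeta
  rw [← h1, eU]
  linear_combination (-(vonMangoldt : ArithmeticFunction ℝ) + trunc vonMangoldt U) * h2

theorem VID : VID_stmt := by
  intro U n hn
  have hn0 : n ≠ 0 := by omega
  refine ⟨?_, ?_, ?_, ?_, ?_⟩
  · have h := congrArg (fun f : ArithmeticFunction ℝ => f n) (VID_id U)
    simp only [ArithmeticFunction.add_apply, VID_sub] at h
    have e1 : (trunc Mr U * ArithmeticFunction.log) n =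
        ∑ d ∈ n.divisors.filter (fun d => d ≤ U), ((moebius d : ℤ) : ℝ) *
          Real.log ((n / d : ℕ) : ℝ) := by
      rw [VID_mul, Finset.sum_filter]
      refine Finset.sum_congr rfl fun d _ => ?_
      rw [trunc_apply]
      by_cases h1 : d ≤ U
      · rw [if_pos h1, if_pos h1, ArithmeticFunction.log_apply]
        rfl
      · rw [if_neg h1, if_neg h1, zero_mul]
    have e2 : (eU U * Zr) n = ∑ d ∈ n.divisors.filter (fun d => d ≤ U ^ 2), eU U d := by
      rw [VID_mul, Finset.sum_filter]
      refine Finset.sum_congr rfl fun d hd => ?_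
      rw [VID_Z _ (VID_div hd), mul_one]
      by_cases h1 : d ≤ U ^ 2
      · rw [if_pos h1]
      · rw [if_neg h1]
        exact VID_eU U d (not_le.1 h1)
    have e3 : ((Mr - trunc Mr U) * ((vonMangoldt - trunc vonMangoldt U) * Zr)) n =
        ∑ d ∈ n.divisors.filter (fun d => U < d), ((moebius d : ℤ) : ℝ) * ga U (n / d) := by
      rw [VID_mul, Finset.sum_filter]
      refine Finset.sum_congr rfl fun d _ => ?_
      rw [VID_ga, VID_sub, trunc_apply]
      by_cases h1 : d ≤ U
      · rw [if_pos h1, if_neg (not_lt.2 h1), sub_self, zero_mul]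
      · rw [if_neg h1, if_pos (not_le.1 h1), sub_zero]
        rfl
    rw [e1, e2, e3, trunc_apply] at h
    exact h
  · unfold eU
    rw [ArithmeticFunction.mul_apply, Nat.sum_divisorsAntidiagonal' (fun a b =>
      (trunc Mr U) a * (trunc vonMangoldt U) b)]
    calc |∑ b ∈ n.divisors, (trunc Mr U) (n / b) * (trunc vonMangoldt U) b|
        ≤ ∑ b ∈ n.divisors, |(trunc Mr U) (n / b) * (trunc vonMangoldt U) b| :=
          Finset.abs_sum_le_sum_abs _ _
      _ ≤ ∑ b ∈ n.divisors, vonMangoldt b := by
          refine Finset.sum_le_sum fun b _ => ?_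
          rw [abs_mul]
          have h1 : |(trunc Mr U) (n / b)| ≤ 1 := by
            rw [trunc_apply]
            split_ifs
            · have : |((moebius (n / b) : ℤ) : ℝ)| ≤ 1 := by
                exact_mod_cast abs_moebius_le_one (n := n / b)
              exact this
            · simp
          have h2 : |(trunc vonMangoldt U) b| ≤ vonMangoldt b := by
            rw [trunc_apply]
            split_ifs
            · rw [abs_of_nonneg vonMangoldt_nonneg]
            · rw [abs_zero]
              exact vonMangoldt_nonneg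
          calc |(trunc Mr U) (n / b)| * |(trunc vonMangoldt U) b|
              ≤ 1 * vonMangoldt b := mul_le_mul h1 h2 (abs_nonneg _) zero_le_one
            _ = vonMangoldt b := one_mul _
      _ = Real.log n := vonMangoldt_sum
  · intro hU
    unfold ga
    refine Finset.sum_eq_zero fun m hm => ?_
    exfalso
    obtain ⟨h1, h2⟩ := Finset.mem_filter.1 hm
    have := Nat.divisor_le h1
    omega
  · unfold ga
    exact Finset.sum_nonneg fun m _ => vonMangoldt_nonneg
  · unfold ga
    calc ∑ m ∈ n.divisors.filter (fun m => U < m), vonMangoldt m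
        ≤ ∑ m ∈ n.divisors, vonMangoldt m :=
          Finset.sum_le_sum_of_subset_of_nonneg (Finset.filter_subset _ _)
            fun m _ _ => vonMangoldt_nonneg
      _ = Real.log n := vonMangoldt_sum

end Pool.Agent.BQ
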